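import Pool.Agent.Work.MP_e120ef_ag.J.Main

attribute [-instance] Subalgebra.normedCommRing Subalgebra.seminormedCommRing
  Subalgebra.seminormedRing Subalgebra.normedRing
  Localization.subalgebra.instIsFractionRingSubtypeMemSubalgebra
attribute [-instance] instCharZeroOfIsSemireal AlgHom.instContinuousLinearMapClassOfAlgHomClass
  RingHomClass.toLinearMapClassRat RingHomClass.toLinearMapClassNNRat NumberField.to_charZero

/-! # Two criteria for `JetFol`; the earlier theorem as a corollary -/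

open CategoryTheory AlgebraicGeometry MvPolynomial

namespace Pool.Agent.Work.MP_e120ef_ag.H.MQ

open CS

section

variable {k F ι : Type} [Field k] [Field F] [Algebra k F]

/-- the value of the differential polynomial `P` on the jets `d^(j+1) (χ (s i))` -/
noncomputable def jetEv {N : Type} [Field N] [Algebra k N] (χ : F →ₐ[k] N) (d : Derivation k N N)
    (s : Fin 2 → F) : MvPolynomial (Fin 2 × ℕ) F →+* N :=
  eval₂Hom χ.toRingHom fun p => (fun y => d y)^[p.2 + 1] (χ (s p.1))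

/-- regular jet differentials of any order: the value lies in every `d`-stable ring that contains
the local ring at a point -/
def JetD (𝒪 : ι → Subalgebra k F) (s : Fin 2 → F) : Set (MvPolynomial (Fin 2 × ℕ) F) :=
  {P | ∀ (x : ι) (N : Type) [Field N] [Algebra k N] (χ : F →ₐ[k] N) (d : Derivation k N N)
    (R : Subring N), (∀ b ∈ 𝒪 x, χ b ∈ R) → (∀ b ∈ R, d b ∈ R) → jetEv χ d s P ∈ R}

/-- a binary form in the first order jets -/
noncomputable def binJ {e : ℕ} (a : Fin (e + 1) → F) : MvPolynomial (Fin 2 × ℕ) F :=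
  ∑ i, C (a i) * X (0, 0) ^ (i : ℕ) * X (1, 0) ^ (e - i)

theorem jetEv_binJ {N : Type} [Field N] [Algebra k N] (χ : F →ₐ[k] N) (d : Derivation k N N)
    (s : Fin 2 → F) {e : ℕ} (a : Fin (e + 1) → F) : jetEv χ d s (binJ a) =
      ∑ i, χ (a i) * d (χ (s 0)) ^ (i : ℕ) * d (χ (s 1)) ^ (e - i) := by
  unfold jetEv binJ
  simp only [map_sum, map_mul, map_pow, eval₂Hom_C, eval₂Hom_X']
  rfl

end

variable {k : Type} [Field k] {Y : Sch k} [IsIntegral Y.left] [IsProper Y.hom]

/-- Elimination criterion: jet differentials `P` that stay regular after multiplication by a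
nonconstant function (sections vanishing on a moving divisor) and whose ideal contains a nonzero
binary form in the first order jets. -/
theorem jetFol_of_ideal {s : Fin 2 → Fn Y} (S : Set (MvPolynomial (Fin 2 × ℕ) (Fn Y)))
    (hS : ∀ P ∈ S, P ∈ JetD (O Y) s ∧
      ∃ h : Fn Y, (∀ c, h ≠ algebraMap k (Fn Y) c) ∧ C h * P ∈ JetD (O Y) s)
    {e : ℕ} {b : Fin (e + 1) → Fn Y} (hb : b ≠ 0) (hI : binJ b ∈ Ideal.span S) : JetFol k s := by
  intro N _ _ χ d H₀
  have H : ∀ P ∈ JetD (O Y) s, ∃ c : k, jetEv χ d s P = algebraMap k N c := fun P hP =>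
    H₀ _ fun 𝒪 h1 h2 => by
      obtain ⟨c, hc⟩ := exists_cf χ 𝒪 h1
      exact hP c N χ d 𝒪.toSubring hc.mem h2
  refine ⟨e, b, hb, ?_⟩
  rw [← jetEv_binJ]
  have h1 : Ideal.span S ≤ RingHom.ker (jetEv χ d s) := Ideal.span_le.2 fun P hP => by
    obtain ⟨h2, h, h3, h4⟩ := hS P hP
    obtain ⟨c, e1⟩ := H _ h2
    obtain ⟨c', e2⟩ := H _ h4
    have e3 : jetEv χ d s (C h) = χ h := eval₂Hom_C _ _ _
    rw [map_mul, e1, e3] at e2
    by_contra h5
    have h6 : algebraMap k N c ≠ 0 := fun h0 => h5 (RingHom.mem_ker.2 (e1.trans h0))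
    refine h3 (c' / c) (χ.toRingHom.injective ?_)
    change χ h = χ (algebraMap k (Fn Y) (c' / c))
    rw [χ.commutes, map_div₀, ← e2, mul_div_cancel_right₀ _ h6]
  exact RingHom.mem_ker.1 (h1 hI)

/-- two independent symmetric differentials of the same degree -/
theorem jetFol_of_sym [Smooth Y.hom] [Infinite k] {s : Fin 2 → Fn Y} {e : ℕ}
    {a a' : Fin (e + 1) → Fn Y} (ha : a ∈ SymD (O Y) s e) (ha' : a' ∈ SymD (O Y) s e)
    (hi : LinearIndependent k ![a, a']) : JetFol k s := by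
  intro N _ _ χ d H
  obtain ⟨c, hc⟩ := H _ fun 𝒪 => Glue_der (tvs ha) χ 𝒪 d
  obtain ⟨c', hc'⟩ := H _ fun 𝒪 => Glue_der (tvs ha') χ 𝒪 d
  simp only [mul_assoc] at hc hc' ⊢
  obtain ⟨b, hb, h2⟩ := Glue_comb χ hi hc hc'
  exact ⟨e, b, hb, h2⟩

/-- the earlier hand-in `McQuillanNotSpecial` follows from the new theorem -/
theorem not_special_sym (K : Type) [NontriviallyNormedField K] [IsUltrametricDist K]
    [CompleteSpace K] [IsAlgClosed K] (hK : ∀ n : ℕ, n ≠ 0 → ‖(n : K)‖ = 1) (Y X : Sch K)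
    [IsIntegral Y.left] [IsProper Y.hom] [Smooth Y.hom] [IsIntegral X.left]
    [LocallyOfFiniteType X.hom] (π : Fn Y →ₐ[K] Fn X) (s : Fin 2 → Fn Y)
    (hs : IsTranscendenceBasis K s) (m : ℕ) (hκ : ∀ u : Fn Y, AlgQ K (Pluri (O Y) s m) u) (d : ℕ)
    (a a' : Fin (d + 1) → Fn Y) (ha : a ∈ SymD (O Y) s d) (ha' : a' ∈ SymD (O Y) s d)
    (hi : LinearIndependent K ![a, a']) : ¬ Br.Special X :=
  not_specialJ hK π hs hκ (jetFol_of_sym ha ha' hi)

end Pool.Agent.Work.MP_e120ef_ag.H.MQ
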