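import Mathlib

/-! Definition used in the statement. -/

namespace Pool.Agent.Work.MP_e120ef_ag

/-- In every differential field `(N, d)` over `k` containing `F` in which only the elements of `k`
lie in all `d`-stable valuation rings over `k`, the first derivatives of `s` are a zero of a
nonzero binary form over `F`. -/
def JetFol (k : Type) {F : Type} [Field k] [Field F] [Algebra k F] (s : Fin 2 → F) : Prop :=
  ∀ (N : Type) [Field N] [Algebra k N] (χ : F →ₐ[k] N) (d : Derivation k N N),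
    (∀ y : N, (∀ 𝒪 : ValuationSubring N, (∀ c, algebraMap k N c ∈ 𝒪) → (∀ x ∈ 𝒪, d x ∈ 𝒪) →
      y ∈ 𝒪) → ∃ c : k, y = algebraMap k N c) →
    ∃ (e : ℕ) (b : Fin (e + 1) → F), b ≠ 0 ∧
      ∑ i, χ (b i) * d (χ (s 0)) ^ (i : ℕ) * d (χ (s 1)) ^ (e - i) = 0

end Pool.Agent.Work.MP_e120ef_ag
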