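import Pool.Agent.Work.MP_e120ef_ag.F.Main
import Pool.Agent.Work.MP_e120ef_ag.J.Defs

attribute [-instance] Subalgebra.normedCommRing Subalgebra.seminormedCommRing
  Subalgebra.seminormedRing Subalgebra.normedRing
  Localization.subalgebra.instIsFractionRingSubtypeMemSubalgebra
attribute [-instance] instCharZeroOfIsSemireal AlgHom.instContinuousLinearMapClassOfAlgHomClass
  RingHomClass.toLinearMapClassRat RingHomClass.toLinearMapClassNNRat NumberField.to_charZero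

/-! # The differential field of a meromorphic map from a group has no nonconstant integral elements -/

open CategoryTheory AlgebraicGeometry

namespace Pool.Agent.Work.MP_e120ef_ag.H.MQ

open CS

theorem J_lift {S T L : Type} [Field S] [Field T] [Field L] (κ : S →+* L) (τ : T →+* L)
    (h : ∀ y, ∃ z, κ y = τ z) : ∃ ψ : S →+* T, ∀ y, τ (ψ y) = κ y := by
  choose z hz using h
  exact ⟨{ toFun := z
           map_one' := τ.injective (by rw [← hz, map_one, map_one])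
           map_mul' := fun a b => τ.injective (by rw [← hz, map_mul, map_mul, ← hz, ← hz])
           map_zero' := τ.injective (by rw [← hz, map_zero, map_zero])
           map_add' := fun a b => τ.injective (by rw [← hz, map_add, map_add, ← hz, ← hz]) },
    fun y => (hz y).symm⟩

theorem J_restr {k M : Type} [Field k] [Field M] [Algebra k M] (S : IntermediateField k M)
    (D : Derivation k M M) (hD : ∀ y ∈ S, D y ∈ S) :
    ∃ d : Derivation k S S, ∀ y : S, (d y : M) = D y :=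
  ⟨{ toFun := fun y => ⟨D y, hD y y.2⟩
     map_add' := fun a b => Subtype.ext (D.map_add a b)
     map_smul' := fun c a => Subtype.ext (D.map_smul c a)
     map_one_eq_zero' := Subtype.ext D.map_one_eq_zero
     leibniz' := fun a b => Subtype.ext (D.leibniz a b) }, fun _ => rfl⟩

section

variable {K : Type} [NontriviallyNormedField K] [IsUltrametricDist K] [CompleteSpace K]
  [IsAlgClosed K] [CharZero K] {n g : ℕ} {K₁ : Type} [NontriviallyNormedField K₁]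
  [IsUltrametricDist K₁] [CompleteSpace K₁] [NormedAlgebra K K₁] (Γ : GD K n K₁)
  {G X : Sch K}
  [GrpObj G] [IsIntegral G.left] [LocallyOfFiniteType G.hom] [IsIntegral X.left]
  {U : G.left.Opens} {𝒩 : ND (B G U) n} {M : Type} [Field M] [Algebra K M] {𝓜 : MI 𝒩 M}
  {φ : Fn X →ₐ[K] M} {ξ : Fin g → Dr G} {N : Fin g → Fin n → T K n}
  {Y : Type} [Field Y] [Algebra K Y] (π : Y →ₐ[K] Fn X)

theorem fullJ (hξ : IsGFrame ξ)
    (hq : ∀ q, IsClosed ({q} : Set G.left) → Nonempty (Chart Γ 𝓜 φ ξ N q)) (κ : Fin g)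
    {s : Fin 2 → Y} (hJ : JetFol K s) : ∃ (e : ℕ) (b : Fin (e + 1) → Y), b ≠ 0 ∧
      ∑ i, φ (π (b i)) * 𝓜.hat (ξ κ) (φ (π (s 0))) ^ (i : ℕ) *
        𝓜.hat (ξ κ) (φ (π (s 1))) ^ (e - i) = 0 := by
  obtain ⟨K', _, _, _, _, _, _, _, _⟩ := exists_Kp K K₁
  obtain ⟨t, γ, hγ⟩ := exists_arcs 𝓜 K' Γ
  obtain ⟨S, hS⟩ : ∃ S : IntermediateField K M, ∀ y, y ∈ S ↔
      ∀ q (u : Chart Γ 𝓜 φ ξ N q), ∃ z, u.κ y = Γ.τ z :=
    ⟨⨅ p : Σ q, Chart Γ 𝓜 φ ξ N q, (Γ.τ.fieldRange).comap p.2.κ, fun y => by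
      rw [← SetLike.mem_coe, IntermediateField.coe_iInf, Set.mem_iInter]
      exact ⟨fun H q u => (H ⟨q, u⟩).imp fun _ h => Eq.symm h,
        fun H p => (H p.1 p.2).imp fun _ h => Eq.symm h⟩⟩
  obtain ⟨d, hd⟩ := J_restr S (𝓜.hat (ξ κ)) fun y hy => (hS _).2 fun q u => by
    obtain ⟨z, hz⟩ := (hS y).1 hy q u
    exact ⟨tl N κ z, by rw [u.κ_hat, hz, τ_tl]⟩
  let χ : Y →ₐ[K] S := (φ.comp π).codRestrict S.toSubalgebra fun y =>
    (hS _).2 fun q u => ⟨_, u.κ_φ _⟩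
  obtain ⟨e, b, hb, h⟩ := hJ S χ d fun y hy => by
    have h1 : ∀ 𝒪, PreV K (fun k x => 𝓜.hat (ξ k) x) 𝒪 → (y : M) ∈ 𝒪 := fun 𝒪 H =>
      hy (𝒪.comap S.val.toRingHom) (fun c => H.alg c) fun x hx => by
        change ((d x : S) : M) ∈ 𝒪
        rw [hd]
        exact H.mem κ _ hx
    obtain ⟨r, hr⟩ := hγ _ fun j => (γ j).sm_of_preV ξ (hξ.memB U) h1
    obtain ⟨c, hc⟩ := hc_const hq (r := r) (fun 𝒪 H => hr ▸ h1 𝒪 H.toPreV) fun q u 𝒪 H => by
      obtain ⟨ψ, hψ⟩ := J_lift (u.κ.toRingHom.comp S.val.toRingHom) Γ.τ.toRingHom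
        fun x => (hS _).1 x.2 q u
      have hψ' : ∀ x : S, Γ.τ (ψ x) = u.κ (x : M) := hψ
      have h2 : u.j r = ψ y := by
        refine Γ.τ.toRingHom.injective ?_
        change Γ.τ _ = Γ.τ _
        rw [← u.κ_J, ← hr, hψ']
      rw [h2]
      refine hy (𝒪.comap ψ) (fun c => ?_) fun x hx => ?_
      · have h3 : ψ (algebraMap K S c) = algebraMap K _ c := by
          refine Γ.τ.toRingHom.injective ?_
          change Γ.τ _ = Γ.τ _
          rw [hψ', Γ.τ.commutes]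
          exact u.κ.commutes c
        change ψ _ ∈ 𝒪
        rw [h3]
        exact H.alg c
      · have h3 : ψ (d x) = tl N κ (ψ x) := by
          refine Γ.τ.toRingHom.injective ?_
          change Γ.τ _ = Γ.τ _
          rw [hψ', hd, u.κ_hat, τ_tl, hψ']
        change ψ _ ∈ 𝒪
        rw [h3]
        exact H.mem κ _ hx
    exact ⟨c, Subtype.ext (hr.trans (by rw [hc, AlgHom.commutes]; rfl))⟩
  refine ⟨e, b, hb, ?_⟩
  have h4 := congrArg S.val h
  have h5 : ∀ x, S.val (d x) = 𝓜.hat (ξ κ) (S.val x) := hd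
  simp only [map_sum, map_mul, map_pow, map_zero, h5] at h4
  exact h4

end

theorem finalJ {K : Type} [NontriviallyNormedField K] [IsUltrametricDist K] [CompleteSpace K]
    [IsAlgClosed K] [CharZero K] (hQ : ∀ n : ℕ, n ≠ 0 → ‖(n : K)‖ = 1) {Y X G : Sch K}
    [IsIntegral Y.left] [IsProper Y.hom] [Smooth Y.hom] [IsIntegral X.left] [GrpObj G]
    [IsIntegral G.left] [LocallyOfFiniteType G.hom] (π : Fn Y →ₐ[K] Fn X) {s : Fin 2 → Fn Y}
    (hs : IsTranscendenceBasis K s) {m : ℕ} (hκ : ∀ u, AlgQ K (Pluri (O Y) s m) u)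
    (hJ : JetFol K s) {f : G.left → X.left} (hf : Mero f) : False := by
  obtain ⟨g, ξ, hξ⟩ := exists_gframe G
  obtain ⟨U, hU, hg, -⟩ := exists_aff (W := ⊤) (x := gp G) trivial
  have := lft_finiteType hU hg
  obtain ⟨n, ⟨𝒩⟩⟩ := exists_ND (B G U) (aff_frac_field hU hg)
  obtain ⟨K₁, _, _, _, _, ⟨Γ⟩⟩ := exists_GD K n
  obtain ⟨M, _, _, ⟨𝓜⟩⟩ := exists_MI' 𝒩
  obtain ⟨φ, hφ⟩ := exists_phiG 𝓜 hf hU hg
  obtain ⟨N, hq, -⟩ := exists_charts Γ 𝓜 hf hU hg hφ hξ ∅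
  obtain ⟨u, m', h, hu, h0, t₀, t₁, t₂⟩ := TVq.gen (m := m) hs (fun _ hh => tvq hh) hκ
  have hu' : AlgebraicIndependent K fun i => φ (π (u i)) :=
    (hu.1.map' π.toRingHom.injective).map' φ.toRingHom.injective
  by_cases h1 : ∃ κ : Fin 2 → Fin g,
      (Matrix.of fun i l => 𝓜.hat (ξ (κ l)) (φ (π (u i)))).det ≠ 0
  · obtain ⟨κ, h1⟩ := h1
    obtain ⟨c, hc⟩ := full (k := K) π.toRingHom (fun c => π.commutes c) hξ hq κ t₀.tvp
    obtain ⟨c', hc'⟩ := full (k := K) π.toRingHom (fun c => π.commutes c) hξ hq κ t₁.tvp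
    have h3 : φ (π h) * (Matrix.of fun i l => 𝓜.hat (ξ (κ l)) (φ (π (u i)))).det ^ m' =
      algebraMap K M c := hc
    have h4 : φ (π (u 0 * h)) * (Matrix.of fun i l => 𝓜.hat (ξ (κ l)) (φ (π (u i)))).det ^ m' =
      algebraMap K M c' := hc'
    have h2 : φ (π (u 0)) = algebraMap K M (c' / c) := by
      rw [map_div₀, ← h3, ← h4, map_mul, map_mul, mul_assoc, mul_div_cancel_right₀ _
        (mul_ne_zero ((map_ne_zero φ).2 ((map_ne_zero π).2 h0)) (pow_ne_zero _ h1))]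
    exact hu'.transcendental 0 (h2 ▸ isAlgebraic_algebraMap _)
  push Not at h1
  obtain ⟨κ, hκ0⟩ : ∃ κ, 𝓜.hat (ξ κ) (φ (π (u 0))) ≠ 0 := by
    by_contra h2
    push Not at h2
    obtain ⟨C, -, hC⟩ := 𝓜.pd_hat ξ hξ.span'
    obtain ⟨c, hc⟩ := 𝓜.pd_const (x := φ (π (u 0))) fun l => by
      rw [hC]
      exact Finset.sum_eq_zero fun κ _ => by rw [h2, mul_zero]
    exact hu'.transcendental 0 (hc ▸ isAlgebraic_algebraMap c)
  obtain ⟨e, b, hb, h2⟩ := fullJ Γ π hξ hq κ hJ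
  simp only [mul_assoc] at h2
  obtain ⟨p, hp, h3⟩ := Main_ratio (u := u) (φ.comp π) (𝓜.hat (ξ κ)) hs hb h2
  refine rank1 Γ hQ 𝓜 hξ.span' (φ.comp π) hu hp h3 (fun κ' => ?_) h0 t₀ t₁ t₂
  have h4 := h1 ![κ, κ']
  rw [Matrix.det_fin_two, sub_eq_zero] at h4
  rw [div_mul_eq_mul_div]
  exact eq_div_of_mul_eq hκ0 (((mul_comm _ _).trans h4).trans (mul_comm _ _))

theorem not_specialJ {K : Type} [NontriviallyNormedField K] [IsUltrametricDist K] [CompleteSpace K]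
    [IsAlgClosed K] (hQ : ∀ n : ℕ, n ≠ 0 → ‖(n : K)‖ = 1) {Y X : Sch K}
    [IsIntegral Y.left] [IsProper Y.hom] [Smooth Y.hom] [IsIntegral X.left]
    [LocallyOfFiniteType X.hom] (π : Fn Y →ₐ[K] Fn X) {s : Fin 2 → Fn Y}
    (hs : IsTranscendenceBasis K s) {m : ℕ} (hκ : ∀ u, AlgQ K (Pluri (O Y) s m) u)
    (hJ : JetFol K s) : ¬ Br.Special X := by
  intro hX
  have : CharZero K := charZero_of_inj_zero fun n hn => by_contra fun h => by
    have := hQ n h
    rw [hn, norm_zero] at this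
    exact zero_ne_one this
  obtain ⟨G, _, _, _, f, hf⟩ := Br.mero_of_special (Br.hasCore K) hX
  exact finalJ hQ π hs hκ hJ hf

end Pool.Agent.Work.MP_e120ef_ag.H.MQ
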